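import Mathlib
import Pool.Agent.H487R3.Cau.Stmts

set_option autoImplicit false

open MeasureTheory Filter Set Topology
open scoped ENNReal NNReal

namespace Pool.Agent.H92R3.Cau
open Pool.Agent.H487R3.Cau

theorem taskExt : TaskExt := by
  intro L γ E u ρ κ hG
  have hu0 : u ≠ 0 := by
    intro h
    have := hG.nu
    rw [h, norm_zero] at this
    norm_num at this
  set a0 : ℝ → ℂ := fun s => γ s / u - s with ha0
  have hbd : ∀ s ∈ E, ∀ t ∈ E, ‖a0 s - a0 t‖ ≤ |s - t| / 20 := by
    intro s hs t ht
    have h := hG.line t ht s (hG.sub hs) (hG.diam s hs t ht)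
    have e : a0 s - a0 t = (γ s - γ t - u * ((s : ℂ) - t)) / u := by
      simp only [ha0]
      field_simp
      ring
    rw [e, norm_div, hG.nu, div_one]
    exact h
  have hre : LipschitzOnWith (1 / 20) (fun s => (a0 s).re) E := by
    apply LipschitzOnWith.of_dist_le_mul
    intro s hs t ht
    rw [Real.dist_eq, Real.dist_eq]
    have h1 := Complex.abs_re_le_norm (a0 s - a0 t)
    rw [Complex.sub_re] at h1
    have h2 := hbd s hs t ht
    push_cast
    linarith
  have him : LipschitzOnWith (1 / 20) (fun s => (a0 s).im) E := by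
    apply LipschitzOnWith.of_dist_le_mul
    intro s hs t ht
    rw [Real.dist_eq, Real.dist_eq]
    have h1 := Complex.abs_im_le_norm (a0 s - a0 t)
    rw [Complex.sub_im] at h1
    have h2 := hbd s hs t ht
    push_cast
    linarith
  obtain ⟨g1, hg1, he1⟩ := hre.extend_real
  obtain ⟨g2, hg2, he2⟩ := him.extend_real
  refine ⟨fun s => (g1 s : ℂ) + g2 s * Complex.I, ?_, ?_⟩
  · apply LipschitzWith.of_dist_le_mul
    intro s t
    rw [dist_eq_norm, Real.dist_eq]
    have h1 := hg1.dist_le_mul s t
    have h2 := hg2.dist_le_mul s t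
    rw [Real.dist_eq, Real.dist_eq] at h1 h2
    have e : ((g1 s : ℂ) + g2 s * Complex.I) - ((g1 t : ℂ) + g2 t * Complex.I) =
        ((g1 s - g1 t : ℝ) : ℂ) + ((g2 s - g2 t : ℝ) : ℂ) * Complex.I := by
      push_cast; ring
    rw [e]
    refine (norm_add_le _ _).trans ?_
    rw [norm_mul, Complex.norm_I, mul_one, Complex.norm_real, Complex.norm_real,
      Real.norm_eq_abs, Real.norm_eq_abs]
    push_cast at h1 h2 ⊢
    linarith
  · intro s hs
    have h1 : (a0 s).re = g1 s := he1 hs
    have h2 : (a0 s).im = g2 s := he2 hs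
    simp only [G]
    rw [← h1, ← h2, Complex.re_add_im]
    simp only [ha0]
    field_simp
    ring

end Pool.Agent.H92R3.Cau
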